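import Pool.Agent.H16.VA.Targets

/-!
# AF: the fields of the elements of `A` on `A[β_0, β_1, ...]`
-/

set_option autoImplicit false

open Finset MvPolynomial

namespace Pool.Agent.H67.VA

open Pool.Agent.H16.VA

section

variable {A : Type} [CommRing A] [Algebra ℂ A] (D : DData A)

/-- the space of all `a ↦ (m ↦ value)` -/
abbrev HH (A : Type) [CommRing A] [Algebra ℂ A] := A →ₗ[ℂ] (ℤ → MvPolynomial ℕ A)

theorem Tj_add (n : ℕ) (a b : A) : D.Tj n (a + b) = D.Tj n a + D.Tj n b := by
  unfold DData.Tj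
  have : ∀ (n : ℕ) (a b : A), (⇑D.T)^[n] (a + b) = (⇑D.T)^[n] a + (⇑D.T)^[n] b := by
    intro n
    induction n with
    | zero => intro a b; rfl
    | succ n ih => intro a b; rw [Function.iterate_succ_apply, Function.iterate_succ_apply,
        Function.iterate_succ_apply, map_add, ih]
  rw [this, smul_add]

theorem Tj_smul (n : ℕ) (c : ℂ) (a : A) : D.Tj n (c • a) = c • D.Tj n a := by
  unfold DData.Tj
  have : ∀ (n : ℕ) (a : A), (⇑D.T)^[n] (c • a) = c • (⇑D.T)^[n] a := by
    intro n
    induction n with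
    | zero => intro a; rfl
    | succ n ih => intro a; rw [Function.iterate_succ_apply, Function.iterate_succ_apply,
        Derivation.map_smul, ih]
  rw [this, smul_comm]

/-- the starting value -/
noncomputable def Phi0 : HH A where
  toFun a := fun m => if m < 0 then C (D.Tj (-m - 1).toNat a) else 0
  map_add' a b := by
    funext m
    simp only [Pi.add_apply]
    split_ifs
    · rw [Tj_add, map_add]
    · rw [add_zero]
  map_smul' c a := by
    funext m
    simp only [Pi.smul_apply, RingHom.id_apply]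
    split_ifs
    · rw [Tj_smul, C_apply, C_apply, smul_monomial]
    · rw [smul_zero]

theorem exists_aeval {A : Type*} [CommRing A] {E : Type*} [Ring E] [Algebra A E] (R : ℕ → E)
    (h : ∀ n p, R n * R p = R p * R n) :
    ∃ ψ : MvPolynomial ℕ A →ₐ[A] E, ∀ n, ψ (X n) = R n := by
  have hc : ∀ a ∈ Set.range R, ∀ b ∈ Set.range R, a * b = b * a := by
    rintro _ ⟨n, rfl⟩ _ ⟨p, rfl⟩
    exact h n p
  let inst : CommRing (Algebra.adjoin A (Set.range R)) :=
    { (inferInstance : Ring (Algebra.adjoin A (Set.range R))) with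
      mul_comm := by
        have := Algebra.isMulCommutative_adjoin A hc
        intro x y
        exact this.is_comm.comm x y }
  refine ⟨(Algebra.adjoin A (Set.range R)).val.comp
    (MvPolynomial.aeval fun n => (⟨R n, Algebra.subset_adjoin ⟨n, rfl⟩⟩ :
      Algebra.adjoin A (Set.range R))), fun n => ?_⟩
  rw [AlgHom.comp_apply, MvPolynomial.aeval_X]
  rfl

/-- the operators `R n` -/
noncomputable def RR (n : ℕ) : Module.End A (HH A) where
  toFun Φ :=
    { toFun := fun a m => X n * Φ a m -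
        ∑ᶠ k : ℕ, (Ring.choose (-(n : ℤ) - 1) k : ℤ) • Φ (D.d k a) (m - n - 1 - k)
      map_add' := by
        intro a b
        obtain ⟨K1, hK1⟩ := D.fin a
        obtain ⟨K2, hK2⟩ := D.fin b
        funext m
        simp only [Pi.add_apply]
        have e : ∀ x : A, (∀ k, max K1 K2 ≤ k → D.d k x = 0) →
            ∑ᶠ k : ℕ, (Ring.choose (-(n : ℤ) - 1) k : ℤ) • Φ (D.d k x) (m - n - 1 - k) =
            ∑ k ∈ range (max K1 K2),
              (Ring.choose (-(n : ℤ) - 1) k : ℤ) • Φ (D.d k x) (m - n - 1 - k) := by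
          intro x hx
          exact S_eq _ fun j hj => by rw [hx j hj, map_zero]; simp
        rw [e a (fun k hk => hK1 k (le_trans (le_max_left _ _) hk)),
          e b (fun k hk => hK2 k (le_trans (le_max_right _ _) hk)),
          e (a + b) (fun k hk => by rw [map_add, hK1 k (le_trans (le_max_left _ _) hk),
            hK2 k (le_trans (le_max_right _ _) hk), add_zero])]
        simp only [map_add, Pi.add_apply, smul_add, Finset.sum_add_distrib, mul_add]
        abel
      map_smul' := by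
        intro c a
        obtain ⟨K, hK⟩ := D.fin a
        funext m
        simp only [Pi.smul_apply, RingHom.id_apply]
        have e : ∀ x : A, (∀ k, K ≤ k → D.d k x = 0) →
            ∑ᶠ k : ℕ, (Ring.choose (-(n : ℤ) - 1) k : ℤ) • Φ (D.d k x) (m - n - 1 - k) =
            ∑ k ∈ range K,
              (Ring.choose (-(n : ℤ) - 1) k : ℤ) • Φ (D.d k x) (m - n - 1 - k) := by
          intro x hx
          exact S_eq _ fun j hj => by rw [hx j hj, map_zero]; simp
        rw [e a hK, e (c • a) (fun k hk => by rw [Derivation.map_smul, hK k hk, smul_zero])]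
        rw [smul_sub, Finset.smul_sum]
        congr 1
        · rw [map_smul, Pi.smul_apply, mul_smul_comm]
        · refine Finset.sum_congr rfl fun k _ => ?_
          rw [Derivation.map_smul, map_smul, Pi.smul_apply, smul_comm] }
  map_add' Φ Ψ := by
    ext a m : 2
    obtain ⟨K, hK⟩ := D.fin a
    have e : ∀ Φ : HH A,
        ∑ᶠ k : ℕ, (Ring.choose (-(n : ℤ) - 1) k : ℤ) • Φ (D.d k a) (m - n - 1 - k) =
        ∑ k ∈ range K,
          (Ring.choose (-(n : ℤ) - 1) k : ℤ) • Φ (D.d k a) (m - n - 1 - k) := by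
      intro Φ
      exact S_eq _ fun j hj => by rw [hK j hj, map_zero]; simp
    simp only [LinearMap.add_apply, LinearMap.coe_mk, AddHom.coe_mk, Pi.add_apply]
    have h3 := e (Φ + Ψ)
    simp only [LinearMap.add_apply, Pi.add_apply] at h3
    rw [h3, e Φ, e Ψ]
    simp only [smul_add, Finset.sum_add_distrib, mul_add]
    abel
  map_smul' b Φ := by
    ext a m : 2
    obtain ⟨K, hK⟩ := D.fin a
    have e : ∀ Φ : HH A,
        ∑ᶠ k : ℕ, (Ring.choose (-(n : ℤ) - 1) k : ℤ) • Φ (D.d k a) (m - n - 1 - k) =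
        ∑ k ∈ range K,
          (Ring.choose (-(n : ℤ) - 1) k : ℤ) • Φ (D.d k a) (m - n - 1 - k) := by
      intro Φ
      exact S_eq _ fun j hj => by rw [hK j hj, map_zero]; simp
    simp only [LinearMap.smul_apply, LinearMap.coe_mk, AddHom.coe_mk, Pi.smul_apply,
      RingHom.id_apply]
    have h3 := e (b • Φ)
    simp only [LinearMap.smul_apply, Pi.smul_apply] at h3
    rw [h3, e Φ, smul_sub, Finset.smul_sum]
    congr 1
    · rw [mul_smul_comm]
    · refine Finset.sum_congr rfl fun k _ => ?_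
      rw [smul_comm]

theorem RR_apply (n : ℕ) (Φ : HH A) (a : A) (m : ℤ) : RR D n Φ a m = X n * Φ a m -
    ∑ᶠ k : ℕ, (Ring.choose (-(n : ℤ) - 1) k : ℤ) • Φ (D.d k a) (m - n - 1 - k) := rfl

theorem RR_apply' (n : ℕ) (Φ : HH A) (a : A) (m : ℤ) (K : ℕ) (hK : ∀ k, K ≤ k → D.d k a = 0) :
    RR D n Φ a m = X n * Φ a m -
    ∑ k ∈ range K, (Ring.choose (-(n : ℤ) - 1) k : ℤ) • Φ (D.d k a) (m - n - 1 - k) := by
  rw [RR_apply]
  congr 1
  exact S_eq _ fun j hj => by rw [hK j hj, map_zero]; simp

theorem RR_comm (n p : ℕ) : RR D n * RR D p = RR D p * RR D n := by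
  ext Φ a m : 3
  obtain ⟨K, hK⟩ := D.fin a
  have key : ∀ n p : ℕ, (RR D n * RR D p) Φ a m = X n * (X p * Φ a m) -
      X n * (∑ l ∈ range K, (Ring.choose (-(p : ℤ) - 1) l : ℤ) • Φ (D.d l a) (m - p - 1 - l)) -
      X p * (∑ k ∈ range K, (Ring.choose (-(n : ℤ) - 1) k : ℤ) • Φ (D.d k a) (m - n - 1 - k)) +
      ∑ k ∈ range K, ∑ l ∈ range K, (Ring.choose (-(n : ℤ) - 1) k : ℤ) •
        (Ring.choose (-(p : ℤ) - 1) l : ℤ) • Φ (D.d l (D.d k a)) (m - n - 1 - k - p - 1 - l) := by
    intro n p
    rw [Module.End.mul_apply, RR_apply' D n _ a m K hK, RR_apply' D p _ a m K hK]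
    have h1 : ∀ k, ∀ l, K ≤ l → D.d l (D.d k a) = 0 := by
      intro k l hl
      rw [D.comm, hK l hl, map_zero]
    simp only [fun k q => RR_apply' D p Φ (D.d k a) q K (h1 k)]
    simp only [smul_sub, Finset.sum_sub_distrib, mul_sub, Finset.smul_sum, Finset.mul_sum,
      mul_smul_comm]
    abel
  have h1 := key n p
  have h2 := key p n
  rw [h1, h2, Finset.sum_comm]
  have e1 : X n * (X p * Φ a m) = X p * (X n * Φ a m) := by ring
  rw [e1]
  have e2 : (∑ y ∈ range K, ∑ x ∈ range K, (Ring.choose (-(n : ℤ) - 1) x : ℤ) •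
        (Ring.choose (-(p : ℤ) - 1) y : ℤ) • Φ (D.d y (D.d x a)) (m - n - 1 - x - p - 1 - y)) =
      ∑ k ∈ range K, ∑ l ∈ range K, (Ring.choose (-(p : ℤ) - 1) k : ℤ) •
        (Ring.choose (-(n : ℤ) - 1) l : ℤ) • Φ (D.d l (D.d k a)) (m - p - 1 - k - n - 1 - l) := by
    refine Finset.sum_congr rfl fun k _ => Finset.sum_congr rfl fun l _ => ?_
    rw [D.comm k l, smul_comm]
    congr 3
    ring_nf
  rw [e2]
  abel

/-- the algebra homomorphism `X n ↦ R n` -/
noncomputable def psi : MvPolynomial ℕ A →ₐ[A] Module.End A (HH A) :=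
  (exists_aeval (RR D) (RR_comm D)).choose

theorem psi_X (n : ℕ) : psi D (X n) = RR D n :=
  (exists_aeval (RR D) (RR_comm D)).choose_spec n

/-- the family `Φ` -/
noncomputable def Phi (v : MvPolynomial ℕ A) : HH A :=
  (psi D v) (Phi0 D)

theorem Phi_add (v w : MvPolynomial ℕ A) : Phi D (v + w) = Phi D v + Phi D w := by
  unfold Phi
  rw [map_add]
  rfl

theorem Phi_mul_X (n : ℕ) (v : MvPolynomial ℕ A) : Phi D (X n * v) = RR D n (Phi D v) := by
  unfold Phi
  rw [map_mul, psi_X]
  rfl

theorem Phi_mul_C (b : A) (v : MvPolynomial ℕ A) : Phi D (C b * v) = b • Phi D v := by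
  unfold Phi
  have : C b * v = b • v := (MvPolynomial.smul_eq_C_mul v b).symm
  rw [this, map_smul]
  rfl

theorem Phi_C (b : A) : Phi D (C b) = b • Phi0 D := by
  have := Phi_mul_C D b 1
  rw [mul_one] at this
  rw [this]
  congr 1
  unfold Phi
  rw [map_one]
  rfl

theorem Phi_smul (c : ℂ) (v : MvPolynomial ℕ A) : Phi D (c • v) = c • Phi D v := by
  have h : c • v = C (algebraMap ℂ A c) * v := by
    rw [← MvPolynomial.smul_eq_C_mul, algebraMap_smul]
  rw [h, Phi_mul_C, algebraMap_smul]

end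

theorem af : AFStmt := by
  intro A _ _ D
  refine ⟨{ toFun := fun a m => { toFun := fun v => Phi D v a m, map_add' := ?_, map_smul' := ?_ },
            map_add' := ?_, map_smul' := ?_ }, ?_, ?_, ?_, ?_⟩
  · intro v w
    rw [Phi_add]
    rfl
  · intro c v
    rw [Phi_smul]
    rfl
  · intro a b
    funext m
    refine LinearMap.ext fun v => ?_
    change Phi D v (a + b) m = Phi D v a m + Phi D v b m
    rw [map_add]
    rfl
  · intro c a
    funext m
    refine LinearMap.ext fun v => ?_
    change Phi D v (c • a) m = c • Phi D v a m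
    rw [map_smul]
    rfl
  · intro a b n
    change Phi D (C b) a _ = _
    rw [Phi_C]
    change b • (Phi0 D a (-(n : ℤ) - 1)) = _
    change b • (if (-(n : ℤ) - 1) < 0 then C (D.Tj (-(-(n : ℤ) - 1) - 1).toNat a) else 0) = _
    rw [if_pos (by omega)]
    have : (-(-(n : ℤ) - 1) - 1).toNat = n := by omega
    rw [this, MvPolynomial.smul_eq_C_mul, ← C_mul, mul_comm]
  · intro a b n
    change Phi D (C b) a _ = _
    rw [Phi_C]
    change b • (if ((n : ℤ)) < 0 then C (D.Tj (-(n : ℤ) - 1).toNat a) else 0) = _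
    rw [if_neg (by omega), smul_zero]
  · intro a m n v
    change Phi D (X n * v) a m = _
    rw [Phi_mul_X, RR_apply]
    rfl
  · intro a b m v
    change Phi D (C b * v) a m = C b * Phi D v a m
    rw [Phi_mul_C, ← MvPolynomial.smul_eq_C_mul]
    rfl

end Pool.Agent.H67.VA
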