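import Pool.Agent.H67.VA.RI2

/-!
# RI, part 3: Zhu's quotient and the final statement
-/

set_option autoImplicit false

open Finset MvPolynomial

namespace Pool.Agent.H67.VA

open Pool.Agent.H16.VA

/-- the coordinate ring of two lines -/
abbrev PP := Polynomial ℂ × Polynomial ℂ

/-- the unit `(1,-1)` -/
noncomputable def uu : PPˣ := ⟨(1, -1), (1, -1), by ext <;> simp, by ext <;> simp⟩

/-- `s ↦ (1,-1)` -/
noncomputable def rho0 : LL →ₐ[ℂ] PP :=
  { LaurentPolynomial.eval₂ (algebraMap ℂ PP) uu with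
    commutes' := by
      intro r
      change LaurentPolynomial.eval₂ (algebraMap ℂ PP) uu (algebraMap ℂ LL r) = _
      rw [← LaurentPolynomial.C_eq_algebraMap, LaurentPolynomial.eval₂_C] }

theorem rho0_T (n : ℤ) : rho0 (LaurentPolynomial.T n) = ((uu ^ n : PPˣ) : PP) :=
  LaurentPolynomial.eval₂_T _ _ _

/-- `ρ` -/
noncomputable def rho : AA →ₐ[ℂ] PP :=
  MvPolynomial.aevalTower rho0 (fun i => if i = 0 then (Polynomial.X, Polynomial.X) else 0)

theorem rho_s (n : ℤ) : rho (sA n) = ((uu ^ n : PPˣ) : PP) := by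
  unfold rho sA
  rw [MvPolynomial.aevalTower_C, rho0_T]

theorem rho_C (l : LL) : rho (C l) = rho0 l := by
  unfold rho
  rw [MvPolynomial.aevalTower_C]

theorem rho_X0 : rho (X 0) = (Polynomial.X, Polynomial.X) := by
  unfold rho
  rw [MvPolynomial.aevalTower_X, if_pos rfl]

theorem rho_X (i : ℕ) (hi : i ≠ 0) : rho (X i) = 0 := by
  unfold rho
  rw [MvPolynomial.aevalTower_X, if_neg hi]

theorem rho_s1 : rho (sA 1) = (1, -1) := by
  rw [rho_s, zpow_one]; rfl

theorem rho_s2 : rho (sA 2) = 1 := by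
  rw [show (2 : ℤ) = 1 + 1 by norm_num, sA_add, map_mul, rho_s1]
  ext <;> simp

/-- the ideal generated by the image of `T` -/
noncomputable abbrev IT : Ideal AA := Ideal.span (Set.range TA)

theorem X_mem_IT (i : ℕ) (hi : i ≠ 0) : (X i : AA) ∈ IT := by
  obtain ⟨k, rfl⟩ : ∃ k, i = k + 1 := ⟨i - 1, by omega⟩
  match k with
  | 0 =>
    have h1 : TA (sA 1) ∈ IT := Ideal.subset_span ⟨_, rfl⟩
    have h2 : (X (0 + 1) : AA) = sA 1 * TA (sA 1) := by
      rw [TA_s, Int.cast_one, one_smul]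
      have : sA 1 * (X 1 * sA (1 - 2)) = (sA 1 * sA (-1)) * X 1 := by
        rw [show (1 - 2 : ℤ) = -1 by norm_num]; ring
      rw [this, ← sA_add]
      norm_num [sA_zero]
    rw [h2]
    exact Ideal.mul_mem_left _ _ h1
  | (k + 1) =>
    have h1 : TA (X (k + 1)) ∈ IT := Ideal.subset_span ⟨_, rfl⟩
    rw [TA_X _ (by omega)] at h1
    have h2 : (X (k + 1 + 1) : AA) = (((k + 1 : ℕ) : ℂ) + 2)⁻¹ •
        ((((k + 1 : ℕ) : ℂ) + 2) • X (k + 1 + 1)) := by
      rw [smul_smul, inv_mul_cancel₀, one_smul]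
      have : (((k + 1 + 2 : ℕ) : ℂ)) ≠ 0 := Nat.cast_ne_zero.2 (by omega)
      push_cast at this ⊢
      exact this
    rw [h2]
    exact Submodule.smul_of_tower_mem _ _ h1

theorem s2_mem_IT : sA 2 - 1 ∈ IT := by
  rw [← TA_X0]
  exact Ideal.subset_span ⟨_, rfl⟩

/-- the embedding of `ℂ[x]` -/
noncomputable def jj : Polynomial ℂ →ₐ[ℂ] AA := Polynomial.aeval (X 0)

theorem rho_jj (p : Polynomial ℂ) : rho (jj p) = (p, p) := by
  have h : (rho.comp jj) p = (p, p) := by
    have h2 : rho.comp jj = (AlgHom.id ℂ (Polynomial ℂ)).prod (AlgHom.id ℂ (Polynomial ℂ)) := by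
      apply Polynomial.algHom_ext
      rw [AlgHom.comp_apply]
      unfold jj
      rw [Polynomial.aeval_X, rho_X0]
      rfl
    rw [h2]
    rfl
  exact h

theorem normal_form (a : AA) : ∃ p q : Polynomial ℂ, a - (jj p + sA 1 * jj q) ∈ IT := by
  have key : ∀ a b : AA, (∃ p q : Polynomial ℂ, a - (jj p + sA 1 * jj q) ∈ IT) →
      (∃ p q : Polynomial ℂ, b - (jj p + sA 1 * jj q) ∈ IT) →
      ∃ p q : Polynomial ℂ, a * b - (jj p + sA 1 * jj q) ∈ IT := by
    rintro a b ⟨p, q, h⟩ ⟨p', q', h'⟩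
    refine ⟨p * p' + q * q', p * q' + q * p', ?_⟩
    have e : a * b - (jj (p * p' + q * q') + sA 1 * jj (p * q' + q * p')) =
        (a - (jj p + sA 1 * jj q)) * b + (jj p + sA 1 * jj q) * (b - (jj p' + sA 1 * jj q')) +
        (jj q * jj q') * (sA 2 - 1) := by
      rw [show (2 : ℤ) = 1 + 1 by norm_num, sA_add]
      simp only [map_add, map_mul]
      ring
    rw [e]
    exact Ideal.add_mem _ (Ideal.add_mem _ (Ideal.mul_mem_right _ _ h)
      (Ideal.mul_mem_left _ _ h')) (Ideal.mul_mem_left _ _ s2_mem_IT)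
  have h1 : ∃ p q : Polynomial ℂ, sA 1 - (jj p + sA 1 * jj q) ∈ IT :=
    ⟨0, 1, by simp⟩
  have hm1 : ∃ p q : Polynomial ℂ, sA (-1) - (jj p + sA 1 * jj q) ∈ IT := by
    refine ⟨0, 1, ?_⟩
    have e : sA (-1) - (jj 0 + sA 1 * jj 1) = (- sA (-1)) * (sA 2 - 1) := by
      have h : sA (-1) * sA 2 = sA 1 := by rw [← sA_add]; norm_num
      rw [map_zero, map_one]
      linear_combination h
    rw [e]
    exact Ideal.mul_mem_left _ _ s2_mem_IT
  have h0 : ∃ p q : Polynomial ℂ, (1 : AA) - (jj p + sA 1 * jj q) ∈ IT := ⟨1, 0, by simp⟩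
  have hn : ∀ n : ℕ, (∃ p q : Polynomial ℂ, sA n - (jj p + sA 1 * jj q) ∈ IT) ∧
      ∃ p q : Polynomial ℂ, sA (-n) - (jj p + sA 1 * jj q) ∈ IT := by
    intro n
    induction n with
    | zero => simp only [Nat.cast_zero, neg_zero, sA_zero]; exact ⟨h0, h0⟩
    | succ n ih =>
      constructor
      · have : (((n + 1 : ℕ) : ℤ)) = (n : ℤ) + 1 := by push_cast; ring
        rw [this, sA_add]; exact key _ _ ih.1 h1
      · have : (-((n + 1 : ℕ) : ℤ)) = -(n : ℤ) + -1 := by push_cast; ring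
        rw [this, sA_add]; exact key _ _ ih.2 hm1
  have hadd : ∀ a b : AA, (∃ p q : Polynomial ℂ, a - (jj p + sA 1 * jj q) ∈ IT) →
      (∃ p q : Polynomial ℂ, b - (jj p + sA 1 * jj q) ∈ IT) →
      ∃ p q : Polynomial ℂ, a + b - (jj p + sA 1 * jj q) ∈ IT := by
    rintro a b ⟨p, q, h⟩ ⟨p', q', h'⟩
    refine ⟨p + p', q + q', ?_⟩
    have e : a + b - (jj (p + p') + sA 1 * jj (q + q')) =
        (a - (jj p + sA 1 * jj q)) + (b - (jj p' + sA 1 * jj q')) := by
      simp only [map_add]
      ring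
    rw [e]
    exact Ideal.add_mem _ h h'
  induction a using MvPolynomial.induction_on with
  | C l =>
    induction l using LL_induction with
    | h1 n =>
      obtain ⟨k, rfl | rfl⟩ := n.eq_nat_or_neg
      · exact (hn k).1
      · exact (hn k).2
    | h2 a b ha hb => rw [C_add]; exact hadd _ _ ha hb
    | h3 c a ha =>
      obtain ⟨p, q, h⟩ := ha
      refine ⟨c • p, c • q, ?_⟩
      have e : (C (c • a) : AA) - (jj (c • p) + sA 1 * jj (c • q)) =
          c • (C a - (jj p + sA 1 * jj q)) := by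
        have : (C (c • a) : AA) = c • C a := by rw [C_apply, C_apply, smul_monomial]
        rw [this, map_smul, map_smul, smul_sub, smul_add, mul_smul_comm]
      rw [e]
      exact Submodule.smul_of_tower_mem _ _ h
  | add p q hp hq => exact hadd _ _ hp hq
  | mul_X p i hp =>
    refine key _ _ hp ?_
    by_cases hi : i = 0
    · subst hi
      refine ⟨Polynomial.X, 0, ?_⟩
      have : jj Polynomial.X = X 0 := Polynomial.aeval_X _
      rw [this, map_zero, mul_zero, add_zero, sub_self]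
      exact Ideal.zero_mem _
    · refine ⟨0, 0, ?_⟩
      rw [map_zero, mul_zero, add_zero, sub_zero]
      exact X_mem_IT i hi

theorem rho_nf (p q : Polynomial ℂ) : rho (jj p + sA 1 * jj q) = (p + q, p - q) := by
  rw [map_add, map_mul, rho_jj, rho_jj, rho_s1]
  ext <;> simp [sub_eq_add_neg]

theorem rho_xs (j : ℕ) : rho (xs (j + 1)) = 0 := by
  match j with
  | 0 =>
    change rho (sA 2 - 1) = 0
    rw [map_sub, rho_s2, map_one, sub_self]
  | (j + 1) => exact rho_X _ (by omega)

theorem rho_TA (a : AA) : rho (TA a) = 0 := by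
  obtain ⟨K, hK⟩ := dA_fin a
  rw [TA_eq a, S_eq K (fun j hj => by
    change ((j : ℂ) + 1) • (DD.Tj (j + 1) (X 0) * dA j a) = 0
    rw [hK j hj, mul_zero, smul_zero]), map_sum]
  refine Finset.sum_eq_zero fun j _ => ?_
  rw [Tj_xs, map_smul, map_mul, rho_xs, zero_mul, smul_zero]

theorem half (z : Polynomial ℂ) : ((2 : ℂ)⁻¹) • z + ((2 : ℂ)⁻¹) • z = z := by
  rw [← add_smul]
  norm_num

theorem rho_surj : Function.Surjective rho := by
  rintro ⟨f, g⟩
  refine ⟨jj ((2 : ℂ)⁻¹ • (f + g)) + sA 1 * jj ((2 : ℂ)⁻¹ • (f - g)), ?_⟩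
  rw [rho_nf]
  ext1
  · change (2 : ℂ)⁻¹ • (f + g) + (2 : ℂ)⁻¹ • (f - g) = f
    rw [← smul_add]
    have : f + g + (f - g) = f + f := by ring
    rw [this, smul_add, half]
  · change (2 : ℂ)⁻¹ • (f + g) - (2 : ℂ)⁻¹ • (f - g) = g
    rw [← smul_sub]
    have : f + g - (f - g) = g + g := by ring
    rw [this, smul_add, half]

theorem rho_ker : RingHom.ker rho = IT := by
  apply le_antisymm
  · intro a ha
    obtain ⟨p, q, h⟩ := normal_form a
    have h1 : IT ≤ RingHom.ker rho := by
      rw [Ideal.span_le]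
      rintro _ ⟨b, rfl⟩
      exact rho_TA b
    have h2 : rho (jj p + sA 1 * jj q) = 0 := by
      have h3 : rho (a - (jj p + sA 1 * jj q)) = 0 := h1 h
      rw [map_sub, (show rho a = 0 from ha), zero_sub, neg_eq_zero] at h3
      exact h3
    rw [rho_nf] at h2
    have h3 : p + q = 0 := congrArg Prod.fst h2
    have h4 : p - q = 0 := congrArg Prod.snd h2
    have h5 : p = 0 := by
      have : p + p = 0 := by linear_combination h3 + h4
      have h6 := half p
      rw [← smul_add, this, smul_zero] at h6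
      exact h6.symm
    have h6 : q = 0 := by rw [h5, zero_add] at h3; exact h3
    rw [h5, h6, map_zero, mul_zero, add_zero, sub_zero] at h
    exact h
  · rw [Ideal.span_le]
    rintro _ ⟨b, rfl⟩
    exact rho_TA b

theorem dd_mul (a b : PP) : dd (a * b) = dd a * b + a * dd b := by
  unfold dd
  ext1
  · exact Polynomial.derivative_mul
  · exact Polynomial.derivative_mul

theorem dd_add (a b : PP) : dd (a + b) = dd a + dd b := by
  unfold dd
  ext1
  · exact Polynomial.derivative_add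
  · exact Polynomial.derivative_add

theorem dd_smul (c : ℂ) (a : PP) : dd (c • a) = c • dd a := by
  unfold dd
  ext1
  · exact Polynomial.derivative_smul c a.1
  · exact Polynomial.derivative_smul c a.2

theorem dd_rho0 (l : LL) : dd (rho0 l) = 0 := by
  have h1 : dd (1 : PP) = 0 := by
    unfold dd; ext1 <;> simp
  have hu : dd ((uu : PPˣ) : PP) = 0 := by
    unfold dd uu; ext1 <;> simp
  have huu : (uu * uu : PPˣ) = 1 := by
    apply Units.ext
    unfold uu
    ext <;> simp
  have hz : ∀ n : ℤ, dd ((uu ^ n : PPˣ) : PP) = 0 := by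
    intro n
    rcases Int.even_or_odd' n with ⟨k, rfl | rfl⟩
    · rw [zpow_mul, zpow_two, huu, one_zpow]; exact h1
    · rw [zpow_add, zpow_mul, zpow_two, huu, one_zpow, one_mul, zpow_one]; exact hu
  induction l using LL_induction with
  | h1 n => rw [rho0_T, hz]
  | h2 a b ha hb => rw [map_add, dd_add, ha, hb, add_zero]
  | h3 c a ha => rw [map_smul, dd_smul, ha, smul_zero]

theorem rho_d0 (a : AA) : rho (dA 0 a) = dd (rho a) := by
  induction a using MvPolynomial.induction_on with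
  | C l =>
    have h1 : dA 0 (C l : AA) = 0 := pderiv_C
    rw [h1, map_zero, rho_C, dd_rho0]
  | add p q hp hq => rw [map_add, map_add, map_add, hp, hq, dd_add]
  | mul_X p i hp =>
    have hX : rho (dA 0 (X i)) = dd (rho (X i)) := by
      rw [dA_zero, pd_X]
      by_cases hi : i = 0
      · subst hi
        rw [if_pos rfl, map_one, rho_X0]
        unfold dd
        ext1 <;> simp
      · rw [if_neg hi, rho_X i hi, map_zero]
        unfold dd
        ext1 <;> simp
    rw [Derivation.leibniz, map_add, smul_eq_mul, smul_eq_mul, map_mul, map_mul, map_mul, hp,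
      dd_mul, hX]
    ring

theorem ri : CoverStmt := by
  refine ⟨AA, inferInstance, inferInstance, DD, X 0, inferInstance, ?_, TA_eq, eul_span,
    d_simple, fin_gen, rho, rho_surj, rho_ker, rho_d0⟩
  intro k
  change dA k (X 0) = _
  rw [dA_X]
  by_cases hk : k = 0
  · rw [if_pos (Or.inl ⟨hk, rfl⟩), if_pos hk]
  · rw [if_neg (by omega), if_neg hk]

end Pool.Agent.H67.VA
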