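import Pool.Agent.H16.VA.Targets

/-!
# RI, part 1: the ring and its derivations
-/

set_option autoImplicit false

open Finset MvPolynomial

namespace Pool.Agent.H67.VA

open Pool.Agent.H16.VA

/-- Laurent polynomials in `s` -/
abbrev LL := LaurentPolynomial ℂ

/-- the ring `A` -/
abbrev AA := MvPolynomial ℕ LL

/-- the Euler operator `s^n ↦ n s^n` (auxiliary function) -/
noncomputable def E0fun (f : LL) : LL :=
  .ofCoeff (Finsupp.onFinset f.coeff.support (fun n => (n : ℂ) * f.coeff n) (by
    intro n hn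
    rw [Finsupp.mem_support_iff]
    intro h
    exact hn (by rw [h, mul_zero])))

theorem coeff_E0fun (f : LL) (n : ℤ) : (E0fun f).coeff n = (n : ℂ) * f.coeff n := rfl

/-- the Euler operator `s^n ↦ n s^n` (auxiliary linear map) -/
noncomputable def E0lin : LL →ₗ[ℂ] LL where
  toFun := E0fun
  map_add' f g := by
    apply AddMonoidAlgebra.coeff_injective
    ext n
    rw [coeff_E0fun, AddMonoidAlgebra.coeff_add, AddMonoidAlgebra.coeff_add, Finsupp.add_apply,
      Finsupp.add_apply, coeff_E0fun, coeff_E0fun, mul_add]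
  map_smul' c f := by
    apply AddMonoidAlgebra.coeff_injective
    ext n
    rw [coeff_E0fun, RingHom.id_apply, AddMonoidAlgebra.coeff_smul, AddMonoidAlgebra.coeff_smul,
      Finsupp.smul_apply, Finsupp.smul_apply, coeff_E0fun, smul_eq_mul, smul_eq_mul]
    ring

theorem coeff_E0lin (f : LL) (n : ℤ) : (E0lin f).coeff n = (n : ℂ) * f.coeff n := rfl

theorem E0lin_T (n : ℤ) : E0lin (LaurentPolynomial.T n) = (n : ℂ) • LaurentPolynomial.T n := by
  apply AddMonoidAlgebra.coeff_injective
  ext m
  rw [coeff_E0lin, AddMonoidAlgebra.coeff_smul, Finsupp.smul_apply, smul_eq_mul]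
  have h : (LaurentPolynomial.T n : LL).coeff = Finsupp.single n 1 := rfl
  rw [h, Finsupp.single_apply]
  split_ifs with h
  · rw [h]
  · simp

theorem LL_induction {P : LL → Prop} (h1 : ∀ n, P (LaurentPolynomial.T n))
    (h2 : ∀ a b, P a → P b → P (a + b)) (h3 : ∀ (c : ℂ) a, P a → P (c • a)) (a : LL) : P a := by
  induction a using LaurentPolynomial.induction_on' with
  | add p q hp hq => exact h2 p q hp hq
  | C_mul_T n a =>
    rw [← LaurentPolynomial.smul_eq_C_mul]
    exact h3 _ _ (h1 n)

/-- the Euler derivation of `ℂ[s,1/s]` -/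
noncomputable def E0 : Derivation ℂ LL LL :=
  Derivation.mk' E0lin (by
    intro a b
    induction a using LL_induction with
    | h1 n =>
      induction b using LL_induction with
      | h1 m =>
        rw [← LaurentPolynomial.T_add, E0lin_T, E0lin_T, E0lin_T]
        rw [smul_eq_mul, smul_eq_mul, mul_smul_comm, mul_smul_comm, ← LaurentPolynomial.T_add,
          ← LaurentPolynomial.T_add, add_comm m n, ← add_smul]
        congr 1
        push_cast
        ring
      | h2 a b ha hb => rw [mul_add, map_add, ha, hb, map_add, add_smul, smul_add]; abel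
      | h3 c b hb =>
        rw [mul_smul_comm, map_smul, hb, map_smul, smul_add, smul_assoc]
        congr 1
        exact smul_comm _ _ _
    | h2 a b ha hb => rw [add_mul, map_add, ha, hb, map_add, add_smul, smul_add]; abel
    | h3 c a ha =>
      rw [smul_mul_assoc, map_smul, ha, map_smul, smul_add, smul_assoc]
      congr 1
      exact smul_comm _ _ _)

theorem E0_T (n : ℤ) : E0 (LaurentPolynomial.T n) = (n : ℂ) • LaurentPolynomial.T n := E0lin_T n

/-- `s^n` in `A` -/
noncomputable def sA (n : ℤ) : AA := C (LaurentPolynomial.T n)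

theorem sA_add (m n : ℤ) : sA (m + n) = sA m * sA n := by
  unfold sA
  rw [← C_mul, LaurentPolynomial.T_add]

theorem sA_zero : sA 0 = 1 := by
  unfold sA
  rw [LaurentPolynomial.T_zero, C_1]

/-- the Euler derivation on `A` -/
noncomputable def EA : Derivation ℂ AA AA := mapDer E0

theorem EA_s (n : ℤ) : EA (sA n) = (n : ℂ) • sA n := by
  unfold EA sA
  rw [mapDer_C, E0_T, C_apply, C_apply, smul_monomial]

theorem EA_X (i : ℕ) : EA (X i) = 0 := mapDer_X _ _

/-- a derivation of `A` over `ℂ` vanishing on `s` and on the variables vanishes -/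
theorem der_ext {D1 D2 : Derivation ℂ AA AA} (hs : D1 (sA 1) = D2 (sA 1))
    (hX : ∀ i, D1 (X i) = D2 (X i)) : D1 = D2 := by
  have h0 : ∀ D : Derivation ℂ AA AA, D (sA (-1)) = - (sA (-2) * D (sA 1)) := by
    intro D
    have h1 : sA (-1) * sA 1 = 1 := by rw [← sA_add]; exact sA_zero
    have h2 : D (sA (-1) * sA 1) = 0 := by rw [h1]; exact D.map_one_eq_zero
    rw [D.leibniz, smul_eq_mul, smul_eq_mul] at h2
    have h3 : sA (-2) = sA (-1) * sA (-1) := by rw [← sA_add]; norm_num
    have h4 : sA (-1) * (sA (-1) * D (sA 1) + sA 1 * D (sA (-1))) = 0 := by rw [h2, mul_zero]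
    have h5 : sA (-1) * (sA (-1) * D (sA 1) + sA 1 * D (sA (-1))) =
        sA (-2) * D (sA 1) + D (sA (-1)) := by
      rw [h3]
      linear_combination D (sA (-1)) * h1
    rw [h5] at h4
    rw [eq_neg_iff_add_eq_zero, add_comm]
    exact h4
  have hs' : D1 (sA (-1)) = D2 (sA (-1)) := by rw [h0, h0, hs]
  have hn : ∀ n : ℕ, D1 (sA n) = D2 (sA n) ∧ D1 (sA (-n)) = D2 (sA (-n)) := by
    intro n
    induction n with
    | zero =>
      simp only [Nat.cast_zero, neg_zero, sA_zero, Derivation.map_one_eq_zero, and_self]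
    | succ n ih =>
      constructor
      · have : (((n + 1 : ℕ) : ℤ)) = (n : ℤ) + 1 := by push_cast; ring
        rw [this, sA_add, D1.leibniz, D2.leibniz, ih.1, hs]
      · have : (-((n + 1 : ℕ) : ℤ)) = -(n : ℤ) + -1 := by push_cast; ring
        rw [this, sA_add, D1.leibniz, D2.leibniz, ih.2, hs']
  have hz : ∀ n : ℤ, D1 (sA n) = D2 (sA n) := by
    intro n
    obtain ⟨k, rfl | rfl⟩ := n.eq_nat_or_neg
    · exact (hn k).1
    · exact (hn k).2
  have hC : ∀ l : LL, D1 (C l) = D2 (C l) := by
    intro l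
    induction l using LL_induction with
    | h1 n => exact hz n
    | h2 a b ha hb => rw [C_add, map_add, map_add, ha, hb]
    | h3 c a ha =>
      have : (C (c • a) : AA) = c • C a := by rw [C_apply, C_apply, smul_monomial]
      rw [this, D1.map_smul, D2.map_smul, ha]
  refine Derivation.ext fun p => ?_
  induction p using MvPolynomial.induction_on with
  | C a => exact hC a
  | add p q hp hq => rw [map_add, map_add, hp, hq]
  | mul_X p i hp => rw [D1.leibniz, D2.leibniz, hp, hX]

/-- `x_k` -/
noncomputable def xs : ℕ → AA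
  | 0 => X 0
  | 1 => sA 2 - 1
  | (k + 2) => X (k + 1)

/-- the derivation `T` -/
noncomputable def TA : Derivation ℂ AA AA :=
  (X 1 * sA (-2)) • EA + (mkDerivation LL (fun i => if i = 0 then sA 2 - 1 else
    ((i : ℂ) + 2) • X (i + 1)) : Derivation LL AA AA).restrictScalars ℂ

theorem TA_s (n : ℤ) : TA (sA n) = (n : ℂ) • (X 1 * sA (n - 2)) := by
  unfold TA
  rw [Derivation.add_apply, Derivation.smul_apply, EA_s, Derivation.restrictScalars_apply]
  have h1 : (mkDerivation LL (fun i => if i = 0 then sA 2 - 1 else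
    ((i : ℂ) + 2) • X (i + 1)) : Derivation LL AA AA) (sA n) = 0 :=
    Derivation.map_algebraMap _ _
  rw [h1, add_zero, smul_eq_mul, mul_smul_comm]
  congr 1
  rw [mul_assoc, ← sA_add]
  congr 2
  ring

theorem TA_X0 : TA (X 0) = sA 2 - 1 := by
  unfold TA
  rw [Derivation.add_apply, Derivation.smul_apply, EA_X, Derivation.restrictScalars_apply,
    mkDerivation_X, smul_zero, zero_add, if_pos rfl]

theorem TA_X (i : ℕ) (hi : i ≠ 0) : TA (X i) = ((i : ℂ) + 2) • X (i + 1) := by
  unfold TA
  rw [Derivation.add_apply, Derivation.smul_apply, EA_X, Derivation.restrictScalars_apply,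
    mkDerivation_X, smul_zero, zero_add, if_neg hi]

/-- the partial derivatives over `ℂ` -/
noncomputable def pd (i : ℕ) : Derivation ℂ AA AA :=
  (pderiv i : Derivation LL AA AA).restrictScalars ℂ

theorem pd_apply (i : ℕ) (a : AA) : pd i a = pderiv i a := rfl

theorem pd_s (i : ℕ) (n : ℤ) : pd i (sA n) = 0 := pderiv_C

theorem pd_X (i j : ℕ) : pd i (X j) = if j = i then 1 else 0 := by
  rw [pd_apply]
  split_ifs with h
  · rw [h, pderiv_X_self]
  · exact pderiv_X_of_ne h

/-- the derivations `d k` -/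
noncomputable def dA : ℕ → Derivation ℂ AA AA
  | 0 => pd 0
  | 1 => ((2 : ℂ)⁻¹) • (sA (-2) • EA)
  | (k + 2) => pd (k + 1)

theorem dA_zero : dA 0 = pd 0 := rfl
theorem dA_two (k : ℕ) : dA (k + 2) = pd (k + 1) := rfl

theorem dA_one_s (n : ℤ) : dA 1 (sA n) = ((2 : ℂ)⁻¹ * n) • sA (n - 2) := by
  unfold dA
  rw [Derivation.smul_apply, Derivation.smul_apply, EA_s, smul_eq_mul, mul_smul_comm, ← sA_add,
    smul_smul]
  congr 2
  ring

theorem dA_one_X (i : ℕ) : dA 1 (X i) = 0 := by
  unfold dA
  rw [Derivation.smul_apply, Derivation.smul_apply, EA_X, smul_zero, smul_zero]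

theorem dA_s (k : ℕ) (hk : k ≠ 1) (n : ℤ) : dA k (sA n) = 0 := by
  match k with
  | 0 => exact pd_s 0 n
  | 1 => exact absurd rfl hk
  | (k + 2) => exact pd_s _ n

theorem comm_zero {D1 D2 : Derivation ℂ AA AA} (hs : D1 (D2 (sA 1)) = D2 (D1 (sA 1)))
    (hX : ∀ i, D1 (D2 (X i)) = D2 (D1 (X i))) (a : AA) : D1 (D2 a) = D2 (D1 a) := by
  have h : ⁅D1, D2⁆ = 0 := by
    apply der_ext
    · rw [Derivation.commutator_apply, hs, sub_self, Derivation.zero_apply]
    · intro i
      rw [Derivation.commutator_apply, hX, sub_self, Derivation.zero_apply]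
  have := congrArg (fun D : Derivation ℂ AA AA => D a) h
  simp only [Derivation.commutator_apply, Derivation.zero_apply] at this
  exact sub_eq_zero.1 this

theorem comm_gen {D1 D2 D3 : Derivation ℂ AA AA} (hs : D1 (D2 (sA 1)) = D2 (D1 (sA 1)) + D3 (sA 1))
    (hX : ∀ i, D1 (D2 (X i)) = D2 (D1 (X i)) + D3 (X i)) (a : AA) :
    D1 (D2 a) = D2 (D1 a) + D3 a := by
  have h : ⁅D1, D2⁆ = D3 := by
    apply der_ext
    · rw [Derivation.commutator_apply, hs, add_sub_cancel_left]
    · intro i
      rw [Derivation.commutator_apply, hX, add_sub_cancel_left]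
  have := congrArg (fun D : Derivation ℂ AA AA => D a) h
  simp only [Derivation.commutator_apply] at this
  exact sub_eq_iff_eq_add'.1 this

theorem dA_comm (m n : ℕ) (a : AA) : dA m (dA n a) = dA n (dA m a) := by
  have hsX : ∀ (m i : ℕ), ∃ c : ℂ, dA m (X i) = c • 1 := by
    intro m i
    match m with
    | 0 =>
      refine ⟨if i = 0 then 1 else 0, ?_⟩
      rw [dA_zero, pd_X]
      split_ifs <;> simp
    | 1 => exact ⟨0, by rw [dA_one_X, zero_smul]⟩
    | (k + 2) =>
      refine ⟨if i = k + 1 then 1 else 0, ?_⟩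
      rw [dA_two, pd_X]
      split_ifs <;> simp
  have hss : ∀ (m : ℕ), ∃ c : ℂ, dA m (sA 1) = c • sA (-1) ∧ (m ≠ 1 → c = 0) := by
    intro m
    by_cases hm : m = 1
    · subst hm
      exact ⟨_, dA_one_s 1, fun h => absurd rfl h⟩
    · exact ⟨0, by rw [dA_s m hm, zero_smul], fun _ => rfl⟩
  have hss' : ∀ (m : ℕ), ∃ c : ℂ, dA m (sA (-1)) = c • sA (-3) ∧ (m ≠ 1 → c = 0) := by
    intro m
    by_cases hm : m = 1
    · subst hm
      exact ⟨_, dA_one_s (-1), fun h => absurd rfl h⟩
    · exact ⟨0, by rw [dA_s m hm, zero_smul], fun _ => rfl⟩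
  by_cases hmn : m = n
  · rw [hmn]
  refine comm_zero ?_ ?_ a
  · obtain ⟨c1, h1, h1'⟩ := hss m
    obtain ⟨c2, h2, h2'⟩ := hss n
    obtain ⟨c3, h3, h3'⟩ := hss' m
    obtain ⟨c4, h4, h4'⟩ := hss' n
    rw [h1, h2, Derivation.map_smul, Derivation.map_smul, h3, h4]
    by_cases hm : m = 1
    · have hn : n ≠ 1 := fun h => hmn (hm.trans h.symm)
      rw [h2' hn, h4' hn]; simp
    · rw [h1' hm, h3' hm]; simp
  · intro i
    obtain ⟨c1, h1⟩ := hsX m i
    obtain ⟨c2, h2⟩ := hsX n i
    rw [h1, h2, Derivation.map_smul, Derivation.map_smul, Derivation.map_one_eq_zero,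
      Derivation.map_one_eq_zero, smul_zero, smul_zero]

theorem dA_T0 (a : AA) : dA 0 (TA a) = TA (dA 0 a) := by
  refine comm_zero ?_ ?_ a
  · rw [TA_s, dA_s 0 (by norm_num), map_zero, Derivation.map_smul, Derivation.leibniz,
      dA_s 0 (by norm_num), dA_zero, pd_X]
    simp
  · intro i
    rw [dA_zero, pd_X]
    by_cases hi : i = 0
    · subst hi
      rw [TA_X0, map_sub, pd_s, Derivation.map_one_eq_zero, if_pos rfl,
        Derivation.map_one_eq_zero, sub_zero]
    · rw [TA_X i hi, Derivation.map_smul, pd_X, if_neg hi, if_neg (by omega), map_zero, smul_zero]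

theorem dA_T (k : ℕ) (a : AA) :
    dA (k + 1) (TA a) = TA (dA (k + 1) a) + ((k + 1 : ℕ) : ℂ) • dA k a := by
  have key : ∀ a, dA (k + 1) (TA a) = TA (dA (k + 1) a) +
      ((((k + 1 : ℕ) : ℂ) • dA k : Derivation ℂ AA AA)) a := by
    refine comm_gen ?_ ?_
    · rw [Derivation.smul_apply]
      match k with
      | 0 =>
        rw [dA_s 0 (by norm_num), smul_zero, add_zero, TA_s, dA_one_s, Derivation.map_smul,
          Derivation.leibniz, dA_one_X, dA_one_s, Derivation.map_smul, TA_s]
        simp only [smul_eq_mul, mul_zero, add_zero, mul_smul_comm, smul_smul]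
        congr 1
        push_cast
        ring
      | 1 =>
        rw [show (1 + 1 : ℕ) = 0 + 2 from rfl, dA_two, pd_s, map_zero, zero_add, TA_s,
          Derivation.map_smul, Derivation.leibniz, pd_s, pd_X, dA_one_s]
        simp only [zero_add, if_true, smul_eq_mul, mul_one, smul_smul, mul_zero]
        norm_num
      | (k + 2) =>
        rw [show (k + 2 + 1 : ℕ) = (k + 1) + 2 from rfl, dA_two, pd_s, map_zero, dA_s _ (by omega),
          smul_zero, add_zero, TA_s, Derivation.map_smul, Derivation.leibniz, pd_s, pd_X,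
          if_neg (by omega)]
        simp
    · intro i
      rw [Derivation.smul_apply]
      match k with
      | 0 =>
        rw [dA_one_X, map_zero, zero_add, dA_zero, pd_X]
        by_cases hi : i = 0
        · subst hi
          rw [TA_X0, map_sub, dA_one_s, Derivation.map_one_eq_zero, if_pos rfl, sub_zero]
          norm_num [sA_zero]
        · rw [TA_X i hi, Derivation.map_smul, dA_one_X, if_neg hi, smul_zero, smul_zero, add_zero]
      | 1 =>
        rw [show (1 + 1 : ℕ) = 0 + 2 from rfl, dA_two, dA_one_X, smul_zero, add_zero, pd_X]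
        by_cases hi : i = 0
        · subst hi
          rw [TA_X0, map_sub, pd_s, Derivation.map_one_eq_zero, if_neg (by omega), sub_zero,
            map_zero]
        · rw [TA_X i hi, Derivation.map_smul, pd_X, if_neg (by omega), smul_zero]
          split_ifs
          · rw [Derivation.map_one_eq_zero]
          · rw [map_zero]
      | (k + 2) =>
        rw [show (k + 2 + 1 : ℕ) = (k + 1) + 2 from rfl, dA_two, dA_two, pd_X, pd_X]
        by_cases hi : i = 0
        · subst hi
          rw [TA_X0, map_sub, pd_s, Derivation.map_one_eq_zero, if_neg (by omega),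
            if_neg (by omega), sub_zero, map_zero, smul_zero, zero_add]
        · rw [TA_X i hi, Derivation.map_smul, pd_X]
          have h1 : TA (if i = k + 1 + 1 then (1 : AA) else 0) = 0 := by
            split_ifs
            · rw [Derivation.map_one_eq_zero]
            · rw [map_zero]
          rw [h1, zero_add]
          by_cases h2 : i = k + 1
          · rw [if_pos (by omega), if_pos h2, h2]
            congr 1
            push_cast
            ring
          · rw [if_neg (by omega), if_neg h2, smul_zero, smul_zero]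
  rw [key a, Derivation.smul_apply]

theorem dA_fin (a : AA) : ∃ K, ∀ k, K ≤ k → dA k a = 0 := by
  refine ⟨a.vars.sup id + 3, fun k hk => ?_⟩
  obtain ⟨j, rfl⟩ : ∃ j, k = j + 2 := ⟨k - 2, by omega⟩
  rw [dA_two, pd_apply]
  apply pderiv_eq_zero_of_notMem_vars
  intro hmem
  have := Finset.le_sup (f := id) hmem
  simp only [id] at this
  omega

/-- the data -/
noncomputable def DD : DData AA where
  T := TA
  d := dA
  comm := dA_comm
  dT0 := dA_T0
  dT := dA_T
  fin := dA_fin

end Pool.Agent.H67.VA
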