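import Pool.Agent.H67.VA.RI1

/-!
# RI, part 2
-/

set_option autoImplicit false

open Finset MvPolynomial

namespace Pool.Agent.H67.VA

open Pool.Agent.H16.VA

theorem TA_xs (k : ℕ) : TA (xs k) = ((k : ℂ) + 1) • xs (k + 1) := by
  match k with
  | 0 =>
    change TA (X 0) = _ • (sA 2 - 1)
    rw [TA_X0]; simp
  | 1 =>
    change TA (sA 2 - 1) = _ • X (0 + 1)
    rw [map_sub, TA_s, Derivation.map_one_eq_zero, sub_zero]
    norm_num [sA_zero]
  | (k + 2) =>
    change TA (X (k + 1)) = _ • X (k + 1 + 1)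
    rw [TA_X _ (by omega)]
    congr 1
    push_cast
    ring

theorem Tj_xs (j : ℕ) : DD.Tj j (X 0) = xs j := by
  have h : ∀ j : ℕ, (⇑TA)^[j] (X 0) = (j.factorial : ℂ) • xs j := by
    intro j
    induction j with
    | zero => simp [xs]
    | succ j ih =>
      rw [Function.iterate_succ_apply', ih, Derivation.map_smul, TA_xs, smul_smul]
      congr 1
      rw [Nat.factorial_succ]
      push_cast
      ring
  unfold DData.Tj
  change ((j.factorial : ℂ)⁻¹) • (⇑TA)^[j] (X 0) = _
  rw [h, smul_smul, inv_mul_cancel₀, one_smul]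
  exact_mod_cast Nat.factorial_ne_zero j

theorem sum_fin (f : ℕ → AA → AA) (hf : ∀ k, f k 0 = 0) (a : AA) :
    ∃ N, ∀ j, N ≤ j → f j (dA j a) = 0 := by
  obtain ⟨K, hK⟩ := dA_fin a
  exact ⟨K, fun j hj => by rw [hK j hj, hf]⟩

/-- `a ↦ Σ_j c_j d_j a` as a derivation -/
noncomputable def sumD (c : ℕ → AA) : Derivation ℂ AA AA :=
  Derivation.mk' 
    { toFun := fun a => ∑ᶠ j : ℕ, c j * dA j a
      map_add' := by
        intro a b
        have h1 := S_fin (sum_fin (fun k x => c k * x) (fun k => mul_zero _) a)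
        have h2 := S_fin (sum_fin (fun k x => c k * x) (fun k => mul_zero _) b)
        rw [← finsum_add_distrib h1 h2]
        refine finsum_congr fun j => ?_
        rw [map_add, mul_add]
      map_smul' := by
        intro r a
        have h1 := S_fin (sum_fin (fun k x => c k * x) (fun k => mul_zero _) a)
        rw [RingHom.id_apply, smul_finsum' r h1]
        refine finsum_congr fun j => ?_
        rw [Derivation.map_smul, mul_smul_comm] }
    (by
      intro a b
      have h1 := S_fin (sum_fin (fun k x => c k * x) (fun k => mul_zero _) a)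
      have h2 := S_fin (sum_fin (fun k x => c k * x) (fun k => mul_zero _) b)
      change ∑ᶠ j : ℕ, c j * dA j (a * b) =
        a * (∑ᶠ j : ℕ, c j * dA j b) + b * (∑ᶠ j : ℕ, c j * dA j a)
      obtain ⟨K1, hK1⟩ := dA_fin a
      obtain ⟨K2, hK2⟩ := dA_fin b
      have g1 : ∀ j, max K1 K2 ≤ j → dA j a = 0 :=
        fun j hj => hK1 j (le_trans (le_max_left _ _) hj)
      have g2 : ∀ j, max K1 K2 ≤ j → dA j b = 0 :=
        fun j hj => hK2 j (le_trans (le_max_right _ _) hj)
      rw [S_eq (max K1 K2) (fun j hj => by rw [Derivation.leibniz, g1 j hj, g2 j hj]; simp),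
        S_eq (max K1 K2) (fun j hj => by rw [g2 j hj, mul_zero]),
        S_eq (max K1 K2) (fun j hj => by rw [g1 j hj, mul_zero]),
        Finset.mul_sum, Finset.mul_sum, ← Finset.sum_add_distrib]
      refine Finset.sum_congr rfl fun j _ => ?_
      rw [Derivation.leibniz, smul_eq_mul, smul_eq_mul]
      ring)

theorem sumD_apply (c : ℕ → AA) (a : AA) : sumD c a = ∑ᶠ j : ℕ, c j * dA j a := rfl

theorem dA_X (j i : ℕ) : dA j (X i) = if (j = 0 ∧ i = 0) ∨ (2 ≤ j ∧ i + 1 = j) then 1 else 0 := by
  match j with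
  | 0 =>
    rw [dA_zero, pd_X]
    by_cases h : i = 0
    · rw [if_pos h, if_pos (Or.inl ⟨rfl, h⟩)]
    · rw [if_neg h, if_neg (by omega)]
  | 1 =>
    rw [dA_one_X, if_neg (by omega)]
  | (k + 2) =>
    rw [dA_two, pd_X]
    by_cases h : i = k + 1
    · rw [if_pos h, if_pos (by omega)]
    · rw [if_neg h, if_neg (by omega)]

theorem sumD_s (c : ℕ → AA) (n : ℤ) : sumD c (sA n) = c 1 * (((2 : ℂ)⁻¹ * n) • sA (n - 2)) := by
  rw [sumD_apply, finsum_eq_single _ 1, dA_one_s]
  intro j hj
  rw [dA_s j hj, mul_zero]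

theorem sumD_X (c : ℕ → AA) (i : ℕ) : sumD c (X i) = if i = 0 then c 0 else c (i + 1) := by
  by_cases hi : i = 0
  · subst hi
    rw [sumD_apply, finsum_eq_single _ 0, dA_X, if_pos (Or.inl ⟨rfl, rfl⟩), mul_one, if_pos rfl]
    intro j hj
    rw [dA_X, if_neg (by omega), mul_zero]
  · rw [sumD_apply, finsum_eq_single _ (i + 1), dA_X, if_pos (by omega), mul_one, if_neg hi]
    intro j hj
    rw [dA_X, if_neg (by omega), mul_zero]

theorem xs_one : xs 1 = sA 2 - 1 := rfl
theorem xs_two (k : ℕ) : xs (k + 2) = X (k + 1) := rfl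
theorem xs_zero : xs 0 = X 0 := rfl

/-- (P2) -/
theorem TA_eq (a : AA) :
    TA a = ∑ᶠ j : ℕ, ((j : ℂ) + 1) • (DD.Tj (j + 1) (X 0) * DD.d j a) := by
  have h : TA = sumD fun j => ((j : ℂ) + 1) • xs (j + 1) := by
    apply der_ext
    · rw [TA_s, sumD_s, xs_two 0]
      simp only [smul_mul_smul_comm]
      norm_num
    · intro i
      rw [sumD_X]
      split_ifs with hi
      · rw [hi, TA_X0, zero_add, xs_one]; simp
      · rw [TA_X i hi]
        obtain ⟨k, rfl⟩ : ∃ k, i = k + 1 := ⟨i - 1, by omega⟩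
        rw [show k + 1 + 1 + 1 = (k + 1) + 2 from rfl, xs_two]
        congr 1
        push_cast
        ring
  rw [h, sumD_apply]
  refine finsum_congr fun j => ?_
  rw [Tj_xs, smul_mul_assoc]
  rfl

/-- the derivation `eul` -/
noncomputable def eul : Derivation ℂ AA AA := sumD fun j => ((j : ℂ) - 1) • xs j

theorem eul_apply (a : AA) :
    eul a = ∑ᶠ j : ℕ, ((j : ℂ) - 1) • (DD.Tj j (X 0) * DD.d j a) := by
  unfold eul
  rw [sumD_apply]
  refine finsum_congr fun j => ?_
  rw [Tj_xs, smul_mul_assoc]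
  rfl

theorem eul_s (n : ℤ) : eul (sA n) = 0 := by
  unfold eul
  rw [sumD_s]
  simp

theorem eul_C (l : LL) : eul (C l) = 0 := by
  induction l using LL_induction with
  | h1 n => exact eul_s n
  | h2 a b ha hb => rw [C_add, map_add, ha, hb, add_zero]
  | h3 c a ha =>
    have : (C (c • a) : AA) = c • C a := by rw [C_apply, C_apply, smul_monomial]
    rw [this, Derivation.map_smul, ha, smul_zero]

theorem eul_X (i : ℕ) : ∃ n : ℤ, eul (X i) = (n : ℂ) • X i := by
  unfold eul
  rw [sumD_X]
  split_ifs with hi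
  · subst hi
    refine ⟨-1, ?_⟩
    rw [xs_zero]
    congr 1
    push_cast
    ring
  · obtain ⟨k, rfl⟩ : ∃ k, i = k + 1 := ⟨i - 1, by omega⟩
    refine ⟨(k : ℤ) + 1, ?_⟩
    rw [show k + 1 + 1 = k + 2 from rfl, xs_two]
    congr 1
    push_cast
    ring

/-- (P3) -/
theorem eul_span : Submodule.span ℂ {a : AA | ∃ n : ℤ,
      ∑ᶠ j : ℕ, ((j : ℂ) - 1) • (DD.Tj j (X 0) * DD.d j a) = (n : ℂ) • a} = ⊤ := by
  have hset : {a : AA | ∃ n : ℤ,
      ∑ᶠ j : ℕ, ((j : ℂ) - 1) • (DD.Tj j (X 0) * DD.d j a) = (n : ℂ) • a} =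
      {a : AA | ∃ n : ℤ, eul a = (n : ℂ) • a} := by
    ext a
    simp only [Set.mem_ofPred_eq, eul_apply]
  rw [hset, eq_top_iff]
  rintro p -
  induction p using MvPolynomial.induction_on with
  | C a =>
    apply Submodule.subset_span
    exact ⟨0, by rw [eul_C]; simp⟩
  | add p q hp hq => exact Submodule.add_mem _ hp hq
  | mul_X p i hp =>
    obtain ⟨w, hw⟩ := eul_X i
    refine Submodule.span_induction (p := fun p _ => p * X i ∈ Submodule.span ℂ
      {a : AA | ∃ n : ℤ, eul a = (n : ℂ) • a}) ?_ ?_ ?_ ?_ hp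
    · rintro a ⟨n, hn⟩
      apply Submodule.subset_span
      refine ⟨n + w, ?_⟩
      rw [Derivation.leibniz, hn, hw, smul_eq_mul, smul_eq_mul, mul_smul_comm, mul_smul_comm,
        mul_comm (X i) a, ← add_smul]
      congr 1
      push_cast
      ring
    · rw [zero_mul]; exact Submodule.zero_mem _
    · intro a b _ _ ha hb
      rw [add_mul]; exact Submodule.add_mem _ ha hb
    · intro c a _ ha
      rw [smul_mul_assoc]; exact Submodule.smul_mem _ _ ha

/-- (P4), first step -/
theorem exists_const (J : Ideal AA) (hJ : ∀ k, ∀ a ∈ J, dA k a ∈ J) (d : ℕ) :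
    ∀ p ∈ J, ∀ m ∈ p.support, m.degree = d → (∀ m' ∈ p.support, m'.degree ≤ d) →
      ∃ l : LL, l ≠ 0 ∧ C l ∈ J := by
  have hJp : ∀ i, ∀ a ∈ J, pderiv i a ∈ J := by
    intro i a ha
    by_cases hi : i = 0
    · subst hi; exact hJ 0 a ha
    · obtain ⟨k, rfl⟩ : ∃ k, i = k + 1 := ⟨i - 1, by omega⟩
      exact hJ (k + 2) a ha
  induction d with
  | zero =>
    intro p hp m hm hmd hall
    have hp' : p = C (coeff 0 p) := by
      ext m' : 1
      rw [coeff_C]
      split_ifs with h
      · rw [h]
      · by_contra hc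
        have h1 : m' ∈ p.support := MvPolynomial.mem_support_iff.2 hc
        have h2 := hall m' h1
        have h3 : m' = 0 := by
          rw [← Finsupp.degree_eq_zero_iff]; omega
        exact h h3.symm
    refine ⟨coeff 0 p, ?_, hp' ▸ hp⟩
    intro h0
    rw [h0, C_0] at hp'
    rw [hp'] at hm
    simp at hm
  | succ d ih =>
    intro p hp m hm hmd hall
    have hm0 : m ≠ 0 := by
      rintro rfl
      simp at hmd
    obtain ⟨i, hi⟩ := Finsupp.ne_iff.1 hm0
    have hi' : m i ≠ 0 := hi
    have hle : Finsupp.single i 1 ≤ m := by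
      rw [Finsupp.single_le_iff]; omega
    have hdec : m - Finsupp.single i 1 + Finsupp.single i 1 = m := tsub_add_cancel_of_le hle
    refine ih (pderiv i p) (hJp i p hp) (m - Finsupp.single i 1) ?_ ?_ ?_
    · rw [MvPolynomial.mem_support_iff, coeff_pderiv, hdec]
      intro h
      have h1 : coeff m p ≠ 0 := MvPolynomial.mem_support_iff.1 hm
      rcases mul_eq_zero.1 h with h2 | h2
      · exact h1 h2
      · have h3 : ∀ k : ℕ, ((k : LL) + 1) ≠ 0 := by
          intro k h
          have h4 : algebraMap ℂ LL ((k : ℂ) + 1) = 0 := by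
            rw [map_add, map_natCast, map_one]; exact h
          have h5 := (map_eq_zero_iff _ (algebraMap ℂ LL).injective).1 h4
          exact Nat.cast_add_one_ne_zero k h5
        exact h3 _ h2
    · have h1 := congrArg Finsupp.degree hdec
      rw [map_add, Finsupp.degree_single, hmd] at h1
      omega
    · intro m' hm'
      rw [MvPolynomial.mem_support_iff, coeff_pderiv] at hm'
      have h1 : m' + Finsupp.single i 1 ∈ p.support := by
        rw [MvPolynomial.mem_support_iff]
        intro h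
        rw [h, zero_mul] at hm'
        exact hm' rfl
      have h2 := hall _ h1
      rw [map_add, Finsupp.degree_single] at h2
      omega

/-- (P4), second step -/
theorem laurent_unit (I : Ideal LL) (hI : ∀ a ∈ I, E0 a ∈ I) (k : ℕ) :
    ∀ l ∈ I, l ≠ 0 → l.coeff.support.card ≤ k → I = ⊤ := by
  induction k with
  | zero =>
    intro l hl hl0 hk
    exfalso
    apply hl0
    apply AddMonoidAlgebra.coeff_injective
    rw [AddMonoidAlgebra.coeff_zero, ← Finsupp.support_eq_empty, ← Finset.card_eq_zero]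
    omega
  | succ k ih =>
    intro l hl hl0 hk
    have hne : l.coeff.support.Nonempty := by
      rw [Finset.nonempty_iff_ne_empty]
      intro h
      apply hl0
      apply AddMonoidAlgebra.coeff_injective
      rw [AddMonoidAlgebra.coeff_zero, ← Finsupp.support_eq_empty, h]
    obtain ⟨n, hn⟩ := hne
    set l' := E0 l - (n : ℂ) • l with hl'
    have hl'I : l' ∈ I := by
      apply I.sub_mem (hI l hl)
      rw [LaurentPolynomial.smul_eq_C_mul]
      exact I.mul_mem_left _ hl
    have hcoef : ∀ j : ℤ, l'.coeff j = ((j : ℂ) - n) * l.coeff j := by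
      intro j
      have h1 : l'.coeff = (E0lin l).coeff - ((n : ℂ) • l).coeff := rfl
      rw [h1, Finsupp.sub_apply, coeff_E0lin, AddMonoidAlgebra.coeff_smul, Finsupp.smul_apply,
        smul_eq_mul, sub_mul]
    by_cases h0 : l' = 0
    · -- monomial
      have h1 : l = LaurentPolynomial.C (l.coeff n) * LaurentPolynomial.T n := by
        apply AddMonoidAlgebra.coeff_injective
        ext j
        rw [← LaurentPolynomial.smul_eq_C_mul, AddMonoidAlgebra.coeff_smul, Finsupp.smul_apply,
          smul_eq_mul]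
        have h : (LaurentPolynomial.T n : LL).coeff = Finsupp.single n 1 := rfl
        rw [h, Finsupp.single_apply]
        split_ifs with h
        · rw [h, mul_one]
        · have h2 := hcoef j
          rw [h0, AddMonoidAlgebra.coeff_zero, Finsupp.zero_apply] at h2
          rcases mul_eq_zero.1 h2.symm with h3 | h3
          · exact absurd (by exact_mod_cast (sub_eq_zero.1 h3).symm) h
          · rw [h3, mul_zero]
      have hc : l.coeff n ≠ 0 := Finsupp.mem_support_iff.1 hn
      rw [Ideal.eq_top_iff_one]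
      have h3 : (1 : LL) = (LaurentPolynomial.C ((l.coeff n)⁻¹) * LaurentPolynomial.T (-n)) * l := by
        rw [h1]
        have h4 : (LaurentPolynomial.C ((l.coeff n)⁻¹) * LaurentPolynomial.T (-n)) *
            (LaurentPolynomial.C (l.coeff n) * LaurentPolynomial.T n) =
            (LaurentPolynomial.C ((l.coeff n)⁻¹) * LaurentPolynomial.C (l.coeff n)) *
            (LaurentPolynomial.T (-n) * LaurentPolynomial.T n) := by ring
        have h5 : ∀ c : ℂ, (LaurentPolynomial.C c * LaurentPolynomial.T n : LL).coeff n = c := by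
          intro c
          rw [← LaurentPolynomial.smul_eq_C_mul, AddMonoidAlgebra.coeff_smul, Finsupp.smul_apply,
            smul_eq_mul]
          have h : (LaurentPolynomial.T n : LL).coeff = Finsupp.single n 1 := rfl
          rw [h, Finsupp.single_eq_same, mul_one]
        rw [h5, h4, ← map_mul, inv_mul_cancel₀ hc, map_one, ← LaurentPolynomial.T_add]
        simp
      rw [h3]
      exact I.mul_mem_left _ hl
    · refine ih l' hl'I h0 ?_
      have hsub : l'.coeff.support ⊆ l.coeff.support.erase n := by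
        intro j hj
        rw [Finset.mem_erase, Finsupp.mem_support_iff]
        rw [Finsupp.mem_support_iff, hcoef] at hj
        constructor
        · rintro rfl
          apply hj
          rw [sub_self, zero_mul]
        · intro h
          apply hj
          rw [h, mul_zero]
      have h2 := Finset.card_le_card hsub
      rw [Finset.card_erase_of_mem hn] at h2
      omega

/-- (P4) -/
theorem d_simple (J : Ideal AA) (hJ : ∀ k, ∀ a ∈ J, dA k a ∈ J) : J = ⊥ ∨ J = ⊤ := by
  by_cases hb : J = ⊥
  · exact Or.inl hb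
  right
  obtain ⟨p, hp, hp0⟩ := Submodule.exists_mem_ne_zero_of_ne_bot hb
  have hne : p.support.Nonempty := MvPolynomial.support_nonempty.2 hp0
  obtain ⟨m, hm, hmax⟩ := Finset.exists_max_image p.support (fun m => m.degree) hne
  obtain ⟨l, hl0, hl⟩ := exists_const J hJ m.degree p hp m hm rfl hmax
  set I : Ideal LL := J.comap (C : LL →+* AA) with hI
  have hIE : ∀ a ∈ I, E0 a ∈ I := by
    intro a ha
    have h1 : dA 1 (C a) ∈ J := hJ 1 _ ha
    have h2 : (C (E0 a) : AA) = (C (LaurentPolynomial.C 2) * sA 2) * dA 1 (C a) := by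
      unfold dA
      rw [Derivation.smul_apply, Derivation.smul_apply]
      have h3 : EA (C a) = C (E0 a) := mapDer_C _ _
      rw [h3, smul_eq_mul]
      have h4 : ((2 : ℂ)⁻¹) • (sA (-2) * C (E0 a)) =
          C (LaurentPolynomial.C ((2 : ℂ)⁻¹)) * (sA (-2) * C (E0 a)) := by
        have h5 : ∀ c : ℂ, ∀ p : AA, c • p = C (LaurentPolynomial.C c) * p := by
          intro c p
          rw [← MvPolynomial.smul_eq_C_mul, LaurentPolynomial.C_eq_algebraMap, algebraMap_smul]
        exact h5 _ _
      rw [h4]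
      have h5 : C (LaurentPolynomial.C 2) * sA 2 *
          (C (LaurentPolynomial.C ((2 : ℂ)⁻¹)) * (sA (-2) * C (E0 a))) =
          (C (LaurentPolynomial.C 2) * C (LaurentPolynomial.C ((2 : ℂ)⁻¹))) *
          (sA 2 * sA (-2)) * C (E0 a) := by ring
      rw [h5, ← C_mul, ← map_mul, ← sA_add]
      norm_num [sA_zero]
    have h6 : (C (E0 a) : AA) ∈ J := by
      rw [h2]; exact J.mul_mem_left _ h1
    exact h6
  have h := laurent_unit I hIE l.coeff.support.card l hl hl0 le_rfl
  rw [Ideal.eq_top_iff_one] at h ⊢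
  have h1 : (C (1 : LL) : AA) ∈ J := h
  rwa [C_1] at h1

/-- a set containing all `s^n` and closed under `ℂ`-linear operations contains all constants -/
theorem C_mem_subalgebra (S : Subalgebra ℂ AA) (h1 : sA 1 ∈ S) (h2 : sA (-1) ∈ S) (l : LL) :
    C l ∈ S := by
  have hn : ∀ n : ℕ, sA n ∈ S ∧ sA (-n) ∈ S := by
    intro n
    induction n with
    | zero => simp only [Nat.cast_zero, neg_zero, sA_zero]; exact ⟨S.one_mem, S.one_mem⟩
    | succ n ih =>
      constructor
      · have : (((n + 1 : ℕ) : ℤ)) = (n : ℤ) + 1 := by push_cast; ring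
        rw [this, sA_add]; exact S.mul_mem ih.1 h1
      · have : (-((n + 1 : ℕ) : ℤ)) = -(n : ℤ) + -1 := by push_cast; ring
        rw [this, sA_add]; exact S.mul_mem ih.2 h2
  induction l using LL_induction with
  | h1 n =>
    obtain ⟨k, rfl | rfl⟩ := n.eq_nat_or_neg
    · exact (hn k).1
    · exact (hn k).2
  | h2 a b ha hb => rw [C_add]; exact S.add_mem ha hb
  | h3 c a ha =>
    have : (C (c • a) : AA) = c • C a := by rw [C_apply, C_apply, smul_monomial]
    rw [this]; exact S.smul_mem ha c

/-- (P5) -/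
theorem fin_gen : ∃ F : Finset AA, ∀ S : Subalgebra ℂ AA, (∀ a ∈ F, a ∈ S) →
    (∀ a ∈ S, TA a ∈ S) → S = ⊤ := by
  classical
  refine ⟨{X 0, sA 1, sA (-1)}, fun S hF hT => ?_⟩
  have hX0 : (X 0 : AA) ∈ S := hF _ (by simp)
  have hs1 : sA 1 ∈ S := hF _ (by simp)
  have hs2 : sA (-1) ∈ S := hF _ (by simp)
  have hX1 : (X 1 : AA) ∈ S := by
    have h1 := hT _ hs1
    rw [TA_s] at h1
    have h2 := S.mul_mem h1 hs1
    have h3 : (((1 : ℤ) : ℂ) • (X 1 * sA (1 - 2))) * sA 1 = (X 1 : AA) := by
      rw [Int.cast_one, one_smul, mul_assoc, ← sA_add]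
      norm_num [sA_zero]
    rwa [h3] at h2
  have hX : ∀ i : ℕ, (X (i + 1) : AA) ∈ S := by
    intro i
    induction i with
    | zero => exact hX1
    | succ i ih =>
      have h1 := hT _ ih
      rw [TA_X _ (by omega)] at h1
      have h2 := S.smul_mem h1 ((((i + 1 : ℕ) : ℂ) + 2)⁻¹)
      rw [smul_smul, inv_mul_cancel₀, one_smul] at h2
      · exact h2
      · have : (((i + 1 + 2 : ℕ) : ℂ)) ≠ 0 := Nat.cast_ne_zero.2 (by omega)
        push_cast at this ⊢
        exact this
  rw [eq_top_iff]
  rintro p -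
  induction p using MvPolynomial.induction_on with
  | C a => exact C_mem_subalgebra S hs1 hs2 a
  | add p q hp hq => exact S.add_mem hp hq
  | mul_X p i hp =>
    refine S.mul_mem hp ?_
    by_cases hi : i = 0
    · rw [hi]; exact hX0
    · obtain ⟨k, rfl⟩ : ∃ k, i = k + 1 := ⟨i - 1, by omega⟩
      exact hX k

end Pool.Agent.H67.VA
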